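import Mathlib
import Pool.Agent.Lib.MP_545343_nt.E1
import Pool.Agent.Lib.MP_545343_nt.E2
import Pool.Agent.Lib.MP_545343_nt.E3

/-!
# The equations (E1), (E2), (E3) have no solutions
-/

set_option autoImplicit false

namespace Pool.Agent.Results.MP_545343_nt.NoSolutions

open Pool.Agent.Lib.MP_545343_nt

/-- None of the equations (E1), (E2), (E3) has a solution in integers
`d, x, y, s, t, m ≥ 2` with `x ≠ y`. -/
theorem result (d x y s t m : ℕ) (hd : 2 ≤ d) (hx : 2 ≤ x) (hy : 2 ≤ y) (hs : 2 ≤ s)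
    (ht : 2 ≤ t) (hm : 2 ≤ m) (hxy : x ≠ y) :
    (((d : ℤ) ^ x + 1) ^ s + 1) ^ t - (d : ℤ) ^ y ≠ 2 ∧
    (d : ℤ) ^ y - (((d : ℤ) ^ x - 1) ^ s - 1) ^ t ≠ 2 ∧
    ((d : ℤ) ^ x + 1) ^ s - ((d : ℤ) ^ y - 1) ^ m ≠ 2 := by
  have hone : ∀ a b : ℕ, 1 ≤ a → 1 ≤ a ^ b := fun a b h => Nat.one_le_pow _ _ h
  refine ⟨fun h => ?_, fun h => ?_, fun h => ?_⟩
  · apply E1_no_solution hd hx hy hs ht
    have h1 : ((((d ^ x + 1) ^ s + 1) ^ t : ℕ) : ℤ) = ((d ^ y + 2 : ℕ) : ℤ) := by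
      push_cast
      linarith
    exact_mod_cast h1
  · apply E2_no_solution hd hx hy hs ht
    have h2 : 1 ≤ d ^ x := hone _ _ (by omega)
    have h4 : 4 ≤ d ^ x := by
      calc 4 = 2 ^ 2 := by norm_num
        _ ≤ d ^ 2 := Nat.pow_le_pow_left hd 2
        _ ≤ d ^ x := Nat.pow_le_pow_right (by omega) hx
    have h3 : 1 ≤ (d ^ x - 1) ^ s := hone _ _ (by omega)
    have h1 : ((d ^ y : ℕ) : ℤ) = ((((d ^ x - 1) ^ s - 1) ^ t + 2 : ℕ) : ℤ) := by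
      push_cast [Nat.cast_sub h3, Nat.cast_sub h2]
      linarith
    exact_mod_cast h1
  · apply E3_no_solution hd hx hy hs hm hxy
    have h2 : 1 ≤ d ^ y := hone _ _ (by omega)
    have h1 : (((d ^ x + 1) ^ s : ℕ) : ℤ) = (((d ^ y - 1) ^ m + 2 : ℕ) : ℤ) := by
      push_cast [Nat.cast_sub h2]
      linarith
    exact_mod_cast h1

end Pool.Agent.Results.MP_545343_nt.NoSolutions
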