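import Pool.Agent.Lib.MP_545343_nt.Q2.All

/-!
# There is no admissible triple
-/

set_option autoImplicit false

namespace Pool.Agent.Results.MP_545343_nt.NoTriples

open Pool.Agent.Lib.MP_545343_nt.Q2

/-- A tuple of complex numbers is multiplicatively dependent if some non-zero vector of integer
exponents gives the product `1`. -/
def MultDep {ι : Type} [Fintype ι] (z : ι → ℂ) : Prop :=
  ∃ m : ι → ℤ, m ≠ 0 ∧ ∏ a, z a ^ m a = 1

/-- An `n`-tuple is `r`-multiplicatively dependent if some `r`-subtuple is multiplicatively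
dependent and every `(r-1)`-subtuple is multiplicatively independent. -/
def KMultDep {n : ℕ} (r : ℕ) (z : Fin n → ℂ) : Prop :=
  (∃ s : Finset (Fin n), s.card = r ∧ MultDep (fun a : s => z a)) ∧
    ∀ s : Finset (Fin n), s.card = r - 1 → ¬ MultDep (fun a : s => z a)

/-- Admissible triples: pairwise distinct integers `> 1` such that `(a,b,c)`, `(a+1,b+1,c+1)` and
`(a+2,b+2,c+2)` are each 2-multiplicatively dependent, and `{2,8}` is not contained in
`{a,b,c}`. -/
structure Admissible (a b c : ℕ) : Prop where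
  ha : 1 < a
  hb : 1 < b
  hc : 1 < c
  hab : a ≠ b
  hac : a ≠ c
  hbc : b ≠ c
  dep0 : KMultDep 2 ![(a : ℂ), (b : ℂ), (c : ℂ)]
  dep1 : KMultDep 2 ![(a : ℂ) + 1, (b : ℂ) + 1, (c : ℂ) + 1]
  dep2 : KMultDep 2 ![(a : ℂ) + 2, (b : ℂ) + 2, (c : ℂ) + 2]
  not_two_eight : ¬ ({2, 8} : Set ℕ) ⊆ {a, b, c}

lemma pair_of_kMultDep {n : ℕ} {z : Fin n → ℂ} (h : KMultDep 2 z) :
    ∃ p q : Fin n, p ≠ q ∧ ∃ m r : ℤ, (m ≠ 0 ∨ r ≠ 0) ∧ z p ^ m * z q ^ r = 1 := by
  obtain ⟨⟨s, hs, m, hm, hprod⟩, -⟩ := h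
  obtain ⟨p, q, hpq, rfl⟩ := Finset.card_eq_two.1 hs
  refine ⟨p, q, hpq, m ⟨p, by simp⟩, m ⟨q, by simp⟩, ?_, ?_⟩
  · by_contra hcon
    push Not at hcon
    apply hm
    funext a
    obtain ⟨a, ha⟩ := a
    rcases Finset.mem_insert.1 ha with rfl | ha'
    · exact hcon.1
    · have := Finset.mem_singleton.1 ha'
      subst this
      exact hcon.2
  · have h1 : ∏ a : ({p, q} : Finset (Fin n)), z a ^ m a =
        ∏ a ∈ ({p, q} : Finset (Fin n)).attach, z a ^ m a := rfl
    rw [h1] at hprod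
    have h2 : ({p, q} : Finset (Fin n)).attach =
        {⟨p, by simp⟩, ⟨q, by simp⟩} := by
      ext ⟨a, ha⟩
      simp only [Finset.mem_attach, Finset.mem_insert, Finset.mem_singleton, Subtype.mk.injEq,
        true_iff]
      simpa using ha
    rw [h2, Finset.prod_pair (by
      intro h3
      exact hpq (by simpa using h3))] at hprod
    exact hprod

lemma dep_of_kMultDep {z : Fin 3 → ℕ} {Z : Fin 3 → ℂ} (hZ : ∀ p, Z p = (z p : ℂ))
    (hz : ∀ p, 1 < z p) (h : KMultDep 2 Z) : ∃ p q : Fin 3, p ≠ q ∧ Dep (z p) (z q) := by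
  obtain ⟨p, q, hpq, m, r, hmr, h1⟩ := pair_of_kMultDep h
  rw [hZ, hZ] at h1
  exact ⟨p, q, hpq, nat_dep (hz p) (hz q) hmr h1⟩

theorem not_admissible (hL : LevequeStmt) (hSh : ShiftStmt)
    (hS : ∀ d x y e i j w k l : ℕ, Sys d x y e i j w k l → False) (a b c : ℕ) :
    ¬ Admissible a b c := by
  intro h
  have hz : ∀ p : Fin 3, 1 < (![a, b, c] : Fin 3 → ℕ) p := by
    intro p
    fin_cases p
    · exact h.ha
    · exact h.hb
    · exact h.hc
  obtain ⟨p0, q0, n0, d0⟩ := dep_of_kMultDep (z := ![a, b, c]) (by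
    intro p; fin_cases p <;> rfl) hz h.dep0
  obtain ⟨p1, q1, n1, d1⟩ := dep_of_kMultDep (z := fun p => (![a, b, c] : Fin 3 → ℕ) p + 1) (by
    intro p; fin_cases p <;> simp) (fun p => by have := hz p; omega) h.dep1
  obtain ⟨p2, q2, n2, d2⟩ := dep_of_kMultDep (z := fun p => (![a, b, c] : Fin 3 → ℕ) p + 2) (by
    intro p; fin_cases p <;> simp) (fun p => by have := hz p; omega) h.dep2
  refine core hL hSh hS ![a, b, c] hz ?_ ?_ n0 n1 n2 d0 d1 d2
  · intro p q hpq
    have h1 := h.hab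
    have h2 := h.hac
    have h3 := h.hbc
    fin_cases p <;> fin_cases q <;> simp at hpq ⊢ <;> omega
  · rintro ⟨⟨p, hp⟩, q, hq⟩
    apply h.not_two_eight
    intro t ht
    rcases ht with rfl | ht
    · fin_cases p <;> simp at hp <;> simp [hp]
    · have : t = 8 := ht
      subst this
      fin_cases q <;> simp at hq <;> simp [hq]

/-- The number of admissible triples, counted up to permutation (as sets `{a, b, c}`), is `0`. -/
theorem result : Set.encard {T : Set ℕ | ∃ a b c : ℕ, T = {a, b, c} ∧ Admissible a b c} = 0 := by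
  rw [Set.encard_eq_zero, Set.eq_empty_iff_forall_notMem]
  rintro T ⟨a, b, c, -, h⟩
  exact not_admissible levequeStmt shiftStmt no_sys a b c h

end Pool.Agent.Results.MP_545343_nt.NoTriples
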